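import Pool.Agent.MP_d3e607_co.Pin.Main

namespace Pool.Agent.Results.MP_d3e607_co.Pinwheel

open Pool.Agent.MP_d3e607_co.Pin

/-- Every finite `k`-degenerate graph splits into `k + 1` forests whose components have diameters
at most `d 0, …, d k` exactly when the pinwheel instance with periods `d i / 2 + 1` has a
schedule. -/
theorem result (k : ℕ) (d : Fin (k + 1) → ℕ) :
    (∀ (V : Type) [Finite V] (G : SimpleGraph V), Degen k G → Splits G d) ↔
      ∃ s : ℕ → Fin (k + 1), ∀ i t, ∃ r, t ≤ r ∧ r ≤ t + d i / 2 ∧ s r = i :=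
  main k d

end Pool.Agent.Results.MP_d3e607_co.Pinwheel
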